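import Mathlib
import Pool.Agent.H759R2.Kad.Props6
import Pool.Agent.H849R2.Kad4.F4

open scoped ComplexOrder InnerProductSpace ComplexConjugate
open Finset

noncomputable section

namespace H759R2.Kad

universe u v

namespace H196C1

variable {H : Type u} [NormedAddCommGroup H] [InnerProductSpace ℂ H] [CompleteSpace H]

open H849F4 Filter Topology in
/-- `F_chain` with strong convergence (the proof of helper849 with one more output) -/
theorem strong_chain (M : VonNeumannAlgebra H) (C : Set (H →L[ℂ] H)) (hne : C.Nonempty)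
    (hC : ∀ v ∈ C, v ∈ M ∧ IsPI v) (hch : ∀ v ∈ C, ∀ w ∈ C, Ext v w ∨ Ext w v) :
    ∃ V ∈ M, IsPI V ∧ (∀ v ∈ C, Ext v V) ∧
      (∀ a b : H →L[ℂ] H, (∀ v ∈ C, a * v * b = 0) → a * V * b = 0) ∧
      ∀ (n : ℕ) (x : Fin n → H) (ε : ℝ), 0 < ε → ∃ v ∈ C, ∀ i, ‖V (x i) - v (x i)‖ ≤ ε := by
  -- the chain as a directed preorder
  let ι := Idx C
  have hPI : ∀ v : ι, IsPI v.1 := fun v => (hC v.1 v.2).2
  let _ : Preorder ι :=
    { le := fun v w => Ext v.1 w.1
      le_refl := fun v => ext_refl (hPI v)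
      le_trans := fun v w z h1 h2 => ext_trans (hPI v) (hPI w) h1 h2 }
  have : Nonempty ι := ⟨⟨hne.some, hne.some_mem⟩⟩
  have : IsDirectedOrder ι := ⟨fun v w => by
    rcases hch v.1 v.2 w.1 w.2 with h | h
    · exact ⟨w, h, ext_refl (hPI w)⟩
    · exact ⟨v, ext_refl (hPI v), h⟩⟩
  have hle : ∀ v w : ι, v ≤ w ↔ Ext v.1 w.1 := fun v w => Iff.rfl
  -- strong convergence
  have hcau : ∀ x : H, Cauchy (map (fun v : ι => v.1 x) atTop) := by
    intro x
    rw [Metric.cauchy_iff]
    refine ⟨inferInstance, ?_⟩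
    intro ε hε
    -- the numbers ‖v x‖^2 are bounded, take v close to the supremum
    have hbdd : BddAbove (Set.range fun v : ι => ‖v.1 x‖ ^ 2) := by
      refine ⟨‖x‖ ^ 2, ?_⟩
      rintro _ ⟨v, rfl⟩
      exact pow_le_pow_left₀ (norm_nonneg _) (norm_app_le (hPI v) x) 2
    obtain ⟨v, hv⟩ := exists_lt_of_lt_ciSup (show (⨆ v : ι, ‖v.1 x‖ ^ 2) - (ε / 4) ^ 2 <
      ⨆ v : ι, ‖v.1 x‖ ^ 2 by have : 0 < (ε / 4) ^ 2 := by positivity
                              linarith)
    have hclose : ∀ w : ι, v ≤ w → dist (w.1 x) (v.1 x) < ε / 2 := by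
      intro w hw
      have h1 := norm_sub_sq (hPI v) (hPI w) hw x
      have h2 : ‖w.1 x‖ ^ 2 ≤ ⨆ v : ι, ‖v.1 x‖ ^ 2 := le_ciSup hbdd w
      rw [dist_eq_norm]
      have h3 : ‖w.1 x - v.1 x‖ ^ 2 < (ε / 4) ^ 2 := by linarith
      have h4 := abs_lt_of_sq_lt_sq h3 (by positivity)
      rw [abs_of_nonneg (norm_nonneg _)] at h4
      linarith
    refine ⟨(fun v : ι => v.1 x) '' Set.Ici v, image_mem_map (mem_atTop v), ?_⟩
    rintro _ ⟨w, hw, rfl⟩ _ ⟨w', hw', rfl⟩
    have h1 := hclose w hw
    have h2 := hclose w' hw'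
    calc dist (w.1 x) (w'.1 x) ≤ dist (w.1 x) (v.1 x) + dist (w'.1 x) (v.1 x) :=
          dist_triangle_right _ _ _
      _ < ε := by linarith
  have hlim : ∀ x : H, ∃ y, Tendsto (fun v : ι => v.1 x) atTop (𝓝 y) := fun x =>
    CompleteSpace.complete (hcau x)
  choose g hg using hlim
  let Vl : H →ₗ[ℂ] H := linearMapOfTendsto g (fun v : ι => (v.1 : H →ₗ[ℂ] H))
    (tendsto_pi_nhds.2 hg)
  have hVl : ∀ x, Vl x = g x := fun x => rfl
  let V : H →L[ℂ] H := Vl.mkContinuous 1 (by
    intro x
    rw [hVl, one_mul]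
    exact le_of_tendsto ((hg x).norm) (Eventually.of_forall fun v => norm_app_le (hPI v) x))
  have hV : ∀ x, Tendsto (fun v : ι => v.1 x) atTop (𝓝 (V x)) := hg
  -- `V` extends every `v`
  have hext : ∀ v ∈ C, Ext v V := by
    intro v hv
    unfold Ext
    ext x
    have h1 := hV ((star v * v) x)
    have h2 : Tendsto (fun w : ι => w.1 ((star v * v) x)) atTop (𝓝 (v x)) := by
      refine tendsto_const_nhds.congr' ?_
      filter_upwards [eventually_ge_atTop (⟨v, hv⟩ : ι)] with w hw
      have h3 : w.1 * (star v * v) = v := hw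
      change v x = (w.1 * (star v * v)) x
      rw [h3]
    exact tendsto_nhds_unique h1 h2
  -- `star V * v = star v * v`
  have hst : ∀ v ∈ C, star V * v = star v * v := by
    intro v hv
    ext x
    refine ext_inner_left ℂ fun y => ?_
    have e1 : ⟪y, (star V * v) x⟫_ℂ = ⟪V y, v x⟫_ℂ := by
      rw [ContinuousLinearMap.star_eq_adjoint, mul_apply_eq_comp,
        ContinuousLinearMap.adjoint_inner_right]
    have h1 : Tendsto (fun w : ι => ⟪w.1 y, v x⟫_ℂ) atTop (𝓝 ⟪V y, v x⟫_ℂ) :=
      (hV y).inner tendsto_const_nhds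
    have h2 : Tendsto (fun w : ι => ⟪w.1 y, v x⟫_ℂ) atTop (𝓝 ⟪y, (star v * v) x⟫_ℂ) := by
      refine tendsto_const_nhds.congr' ?_
      filter_upwards [eventually_ge_atTop (⟨v, hv⟩ : ι)] with w hw
      rw [← star_mul_of_ext (hPI ⟨v, hv⟩) (hPI w) hw, ContinuousLinearMap.star_eq_adjoint,
        mul_apply_eq_comp, ContinuousLinearMap.adjoint_inner_right]
    rw [e1]
    exact tendsto_nhds_unique h1 h2
  refine ⟨V, ?_, ?_, hext, ?_, ?_⟩
  · -- membership
    rw [← VonNeumannAlgebra.commutant_commutant M, VonNeumannAlgebra.mem_commutant_iff]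
    intro y hy
    rw [VonNeumannAlgebra.mem_commutant_iff] at hy
    ext x
    have h1 : Tendsto (fun w : ι => y (w.1 x)) atTop (𝓝 (y (V x))) :=
      (y.continuous.tendsto _).comp (hV x)
    have h2 : Tendsto (fun w : ι => y (w.1 x)) atTop (𝓝 (V (y x))) := by
      refine (hV (y x)).congr ?_
      intro w
      have := hy w.1 (hC w.1 w.2).1
      exact congrArg (fun T : H →L[ℂ] H => T x) this
    exact tendsto_nhds_unique h1 h2
  · -- partial isometry
    unfold IsPI
    ext x
    have h1 : Tendsto (fun w : ι => (V * star V) (w.1 x)) atTop (𝓝 ((V * star V) (V x))) :=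
      ((V * star V).continuous.tendsto _).comp (hV x)
    have h2 : Tendsto (fun w : ι => (V * star V) (w.1 x)) atTop (𝓝 (V x)) := by
      refine (hV x).congr ?_
      intro w
      have e1 : V * star V * w.1 = w.1 := by
        rw [mul_assoc, hst w.1 w.2]; exact hext w.1 w.2
      exact congrArg (fun T : H →L[ℂ] H => T x) e1.symm
    exact tendsto_nhds_unique h1 h2
  · intro a b hab
    ext x
    have h1 : Tendsto (fun w : ι => a (w.1 (b x))) atTop (𝓝 (a (V (b x)))) :=
      (a.continuous.tendsto _).comp (hV (b x))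
    have h2 : Tendsto (fun w : ι => a (w.1 (b x))) atTop (𝓝 0) := by
      refine tendsto_const_nhds.congr ?_
      intro w
      exact (congrArg (fun T : H →L[ℂ] H => T x) (hab w.1 w.2)).symm
    exact tendsto_nhds_unique h1 h2
  · intro n x ε hε
    have h1 : ∀ i : Fin n, ∀ᶠ v : ι in atTop, ‖V (x i) - v.1 (x i)‖ ≤ ε := by
      intro i
      have h2 := (Metric.tendsto_nhds.1 (hV (x i))) ε hε
      filter_upwards [h2] with v hv
      rw [← dist_eq_norm, dist_comm]
      exact hv.le
    obtain ⟨v, hv⟩ := (eventually_all.2 h1).exists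
    exact ⟨v.1, v.2, hv⟩


/-- uniqueness of least upper bounds -/
theorem ub_unique {A : Type u} [CStarAlgebra A] {C : Set A} (hC : ∀ v ∈ C, PIs v) {V V' : A}
    (h : UB C V) (h' : UB C V') : V = V' := by
  have h1 : ∀ v ∈ C, v * star (V - V') = 0 := by
    intro v hv
    have e1 : V * (star v * v) = v := h.ext v hv
    have e2 : V' * (star v * v) = v := h'.ext v hv
    have e3 : v * star v * v = v := hC v hv
    have e4 : star v = star v * v * star v := by
      have := congrArg star e3
      rw [star_mul, star_mul, star_star] at this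
      rw [mul_assoc]
      exact this.symm
    have e5 : (V - V') * star v = 0 := by
      rw [e4, ← mul_assoc, sub_mul, e1, e2, sub_self, zero_mul]
    have := congrArg star e5
    rwa [star_mul, star_star, star_zero] at this
  have k1 := h.ann 1 (star (V - V')) (fun v hv => by rw [one_mul]; exact h1 v hv)
  have k2 := h'.ann 1 (star (V - V')) (fun v hv => by rw [one_mul]; exact h1 v hv)
  rw [one_mul] at k1 k2
  have k3 : (V - V') * star (V - V') = 0 := by rw [sub_mul, k1, k2, sub_self]
  exact sub_eq_zero.1 ((CStarRing.mul_star_self_eq_zero_iff _).1 k3)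

/-- adjoints -/
theorem adj_norm {V v : H →L[ℂ] H} (hv : IsPI v) (hV : IsPI V) (h : Ext v V) (x : H) :
    ‖star V x - star v x‖ = ‖V (star V x) - v (star V x)‖ := by
  have e1 : V * (star v * v) = v := h
  have e2 : (star v * v) * star V = star v := by
    have := congrArg star e1
    rwa [star_mul, star_mul, star_star] at this
  have e3 : star V * V * star V = star V := by
    have hV' : V * star V * V = V := hV
    have := congrArg star hV'
    rw [star_mul, star_mul, star_star, ← mul_assoc] at this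
    exact this
  have e5 : star V * V * star v = star v := by
    calc star V * V * star v = star V * V * ((star v * v) * star V) := by rw [e2]
      _ = ((star V * V) * (star v * v)) * star V := by simp only [mul_assoc]
      _ = _ := by rw [H849F4.ini_ini hv hV h, e2]
  set z : H := star V x - star v x with hz
  have e4 : (star V * V) z = z := by
    have f1 : (star V * V) (star V x) = star V x := by
      rw [← mul_apply_eq_comp, e3]
    have f2 : (star V * V) (star v x) = star v x := by
      rw [← mul_apply_eq_comp, e5]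
    rw [hz, map_sub, f1, f2]
  have e6 : V (star V x) - v (star V x) = V z := by
    have : v (star V x) = V (star v x) := by
      rw [← mul_apply_eq_comp, ← mul_apply_eq_comp, ← e2]
      conv_lhs => rw [← e1]
      simp only [mul_assoc]
    rw [this, hz, map_sub]
  rw [e6]
  have e7 : ‖V z‖ ^ 2 = ‖z‖ ^ 2 := by
    have k1 : ⟪V z, V z⟫_ℂ = ⟪z, z⟫_ℂ := by
      have k0 : ⟪V z, V z⟫_ℂ = ⟪z, (star V * V) z⟫_ℂ := by
        rw [mul_apply_eq_comp, ContinuousLinearMap.star_eq_adjoint,
          ContinuousLinearMap.adjoint_inner_right]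
      rw [k0, e4]
    rw [inner_self_eq_norm_sq_to_K, inner_self_eq_norm_sq_to_K] at k1
    exact_mod_cast k1
  have := (pow_left_inj₀ (norm_nonneg _) (norm_nonneg _) (two_ne_zero)).1 e7
  exact this.symm

end H196C1

open H196C1 in
/-- C1: chains of partial isometries in a von Neumann algebra -/
theorem prove6_chain_all : C_chain.{u} := by
  intro H _ _ _ M C hC
  obtain ⟨hne, hPI, hch⟩ := hC
  set C' : Set (H →L[ℂ] H) := (fun v : M.toStarSubalgebra => (v : H →L[ℂ] H)) '' C with hC'
  have hPI' : ∀ v : M.toStarSubalgebra, PIs v → IsPI (v : H →L[ℂ] H) := by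
    intro v hv
    have := congrArg (fun a : M.toStarSubalgebra => (a : H →L[ℂ] H)) hv
    exact this
  have hExt' : ∀ v w : M.toStarSubalgebra, Exd v w → Ext (v : H →L[ℂ] H) (w : H →L[ℂ] H) := by
    intro v w hvw
    have := congrArg (fun a : M.toStarSubalgebra => (a : H →L[ℂ] H)) hvw
    exact this
  obtain ⟨V0, hV0M, hV0, hext, hann, hstr⟩ := strong_chain M C' (hne.image _) (by
    rintro _ ⟨v, hv, rfl⟩
    exact ⟨v.2, hPI' v (hPI v hv)⟩) (by
    rintro _ ⟨v, hv, rfl⟩ _ ⟨w, hw, rfl⟩
    rcases hch v hv w hw with h | h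
    · exact Or.inl (hExt' v w h)
    · exact Or.inr (hExt' w v h))
  set V : M.toStarSubalgebra := ⟨V0, hV0M⟩ with hV
  have hUB : UB C V := by
    refine ⟨?_, ?_, ?_⟩
    · apply Subtype.ext
      exact hV0
    · intro v hv
      apply Subtype.ext
      exact hext v ⟨v, hv, rfl⟩
    · intro a b hab
      apply Subtype.ext
      refine hann a b ?_
      rintro _ ⟨v, hv, rfl⟩
      have := congrArg (fun a : M.toStarSubalgebra => (a : H →L[ℂ] H)) (hab v hv)
      exact this
  refine ⟨⟨V, hUB⟩, ?_⟩
  intro W hW n x ε hε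
  have hWV : W = V := ub_unique hPI hW hUB
  rw [hWV]
  -- the vectors `x i` and `V* x i`
  obtain ⟨_, ⟨v, hv, rfl⟩, hle⟩ := hstr (n + n) (Fin.append x (fun i => star V0 (x i))) ε hε
  refine ⟨v, hv, fun i => ⟨?_, ?_⟩⟩
  · have := hle (Fin.castAdd n i)
    rwa [Fin.append_left] at this
  · have := hle (Fin.natAdd n i)
    rw [Fin.append_right] at this
    have h2 := adj_norm (hPI' v (hPI v hv)) hV0 (hext _ ⟨v, hv, rfl⟩) (x i)
    rw [← h2] at this
    exact this

/-- C1, in the form of the task -/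
theorem prove6_chain (_h : F_chain.{u}) : C_chain.{u} := prove6_chain_all

end H759R2.Kad
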