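import Mathlib
import Pool.Agent.H759R2.Kad.Props7

open scoped ComplexOrder InnerProductSpace ComplexConjugate
open Finset

noncomputable section

namespace H759R2.Kad

universe u v

namespace H196Q13

variable {F : Type u} [CStarAlgebra F]

/-- a partial isometry and its initial projection -/
theorem mul_ini {v p : F} (hp : Prj p) (h : star v * v = p) : v * p = v := by
  have h1 : star (v - v * p) * (v - v * p) = 0 := by
    rw [star_sub, star_mul, hp.1]
    calc (star v - p * star v) * (v - v * p) =
        star v * v - star v * v * p - p * (star v * v) + p * (star v * v) * p := by noncomm_ring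
      _ = 0 := by rw [h, hp.2, hp.2]; abel
  have h2 := (CStarRing.star_mul_self_eq_zero_iff _).1 h1
  exact (sub_eq_zero.1 h2).symm

/-- the sum of the range projections of a tuple is a projection -/
theorem tup_sum_prj {k : ℕ} {V : Fin k → F} {P : F} (hV : Tup V P) :
    Prj (∑ i, V i * star (V i)) := by
  have hVP : ∀ i, V i * P = V i := fun i => mul_ini hV.pr (by
    have := hV.rel i i
    rwa [if_pos rfl] at this)
  constructor
  · rw [star_sum]
    exact sum_congr rfl fun i _ => by rw [star_mul, star_star]
  · rw [sum_mul]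
    apply sum_congr rfl
    intro i _
    rw [mul_sum]
    rw [sum_eq_single i]
    · calc V i * star (V i) * (V i * star (V i)) = V i * (star (V i) * V i) * star (V i) := by
            simp only [mul_assoc]
        _ = _ := by rw [hV.rel i i, if_pos rfl, hVP]
    · intro j _ hji
      calc V i * star (V i) * (V j * star (V j)) = V i * (star (V i) * V j) * star (V j) := by
            simp only [mul_assoc]
        _ = 0 := by rw [hV.rel i j, if_neg (Ne.symm hji)]; simp
    · intro h
      exact absurd (mem_univ i) h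

theorem prj_one_sub {e : F} (h : Prj e) : Prj (1 - e) := by
  constructor
  · rw [star_sub, star_one, h.1]
  · calc (1 - e) * (1 - e) = 1 - e - e + e * e := by noncomm_ring
      _ = 1 - e := by rw [h.2]; abel

theorem tau_prj {τ : F →ₗ[ℂ] ℂ} (hτ : ∀ a, 0 ≤ τ (star a * a)) {e : F} (h : Prj e) : 0 ≤ τ e := by
  have := hτ e
  rwa [h.1, h.2] at this

/-- the trace of a subequivalent projection -/
theorem tau_sbe {τ : F →ₗ[ℂ] ℂ} (hτ : ∀ a, 0 ≤ τ (star a * a)) (hc : ∀ a b, τ (a * b) = τ (b * a))
    {e P : F} (he : Prj e) (hP : Prj P) (h : Sbe e P) : τ e ≤ τ P := by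
  obtain ⟨S, hS1, hS2⟩ := h
  have hSe : S * e = S := mul_ini he hS1
  have hS3 : star S * P = star S := by
    have := congrArg star hS2
    rwa [star_mul, hP.1] at this
  have hy : Prj (P - S * star S) := by
    constructor
    · rw [star_sub, hP.1, star_mul, star_star]
    · calc (P - S * star S) * (P - S * star S) =
          P * P - (P * S) * star S - S * (star S * P) + S * (star S * S) * star S := by
            noncomm_ring
        _ = P - S * star S := by rw [hP.2, hS2, hS3, hS1, hSe]; abel
  have h1 := tau_prj hτ hy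
  rw [map_sub, hc S (star S), hS1] at h1
  exact sub_nonneg.1 h1

end H196Q13

open H196Q13 in
theorem prove7_ctr : Q_ctr.{u} := by
  intro F _ τ hτ k V P hV hS N _ j hj
  have hQ := tup_sum_prj hV
  have he := prj_one_sub hQ
  have h1 := tau_sbe hτ.pos hτ.comm he hV.pr hS
  have h2 : τ (∑ i, V i * star (V i)) = (k : ℂ) * τ P := by
    rw [map_sum]
    rw [sum_congr rfl (fun i _ => by
      rw [hτ.comm, hV.rel i i, if_pos rfl] : ∀ i ∈ (univ : Finset (Fin k)),
        τ (V i * star (V i)) = τ P)]
    simp
  have hP0 := tau_prj hτ.pos hV.pr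
  have h3 : (1 : ℂ) ≤ ((k : ℂ) + 1) * τ P := by
    have e1 : (1 : ℂ) = (k : ℂ) * τ P + τ (1 - ∑ i, V i * star (V i)) := by
      rw [map_sub, hτ.one, h2]; ring
    calc (1 : ℂ) = (k : ℂ) * τ P + τ (1 - ∑ i, V i * star (V i)) := e1
      _ ≤ (k : ℂ) * τ P + τ P := by gcongr
      _ = _ := by ring
  have hP1 : τ P ≠ 0 := by
    intro h0
    rw [h0, mul_zero] at h3
    have := h3.trans_lt (zero_lt_one (α := ℂ))
    exact lt_irrefl _ this
  have hPinv : 0 ≤ (τ P)⁻¹ := by
    rw [Complex.le_def] at hP0 ⊢
    have him : (τ P).im = 0 := by simpa using hP0.2.symm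
    have hre : 0 ≤ (τ P).re := by simpa using hP0.1
    have : τ P = ((τ P).re : ℂ) := by
      apply Complex.ext <;> simp [him]
    rw [this, ← Complex.ofReal_inv]
    simp [hre]
  refine ⟨{ toFun := fun x => (τ P)⁻¹ * τ (j x)
            map_add' := fun x y => by rw [map_add, map_add, mul_add]
            map_smul' := fun c x => by
              rw [map_smul, map_smul, smul_eq_mul, smul_eq_mul, RingHom.id_apply]; ring }, ?_, ?_, ?_⟩
  · change (τ P)⁻¹ * τ (j 1) = 1
    rw [hj.one, inv_mul_cancel₀ hP1]
  · intro a
    change 0 ≤ (τ P)⁻¹ * τ (j (star a * a))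
    rw [map_mul, map_star]
    exact mul_nonneg hPinv (hτ.pos _)
  · intro a b
    change (τ P)⁻¹ * τ (j (a * b)) = (τ P)⁻¹ * τ (j (b * a))
    rw [map_mul j a b, map_mul j b a, hτ.comm]

end H759R2.Kad
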